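import Pool.Agent.Lib.MP_e508a7_gt.KBFinal
import Pool.Agent.Lib.MP_e508a7_gt.KBCount
import Pool.Agent.Lib.MP_e508a7_gt.KBPlanar

set_option autoImplicit false

namespace Pool.Agent.Results.MP_e508a7_gt.BestCentre

open MeasureTheory Set

/-- The volume of `K ∩ -K`. -/
noncomputable def core (K : Set (EuclideanSpace ℝ (Fin 3))) : ENNReal :=
  volume {x | x ∈ K ∧ -x ∈ K}

/-- The volume of `K ∩ (2p - K)`, the intersection of `K` with its reflection in the point `p`. -/
noncomputable def coreAt (K : Set (EuclideanSpace ℝ (Fin 3))) (p : EuclideanSpace ℝ (Fin 3)) :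
    ENNReal :=
  volume {x | x ∈ K ∧ (2 : ℝ) • p - x ∈ K}

/-- The point `p` is fixed by every affine bijection of the space that maps `K` onto `K`. -/
def Fixed (K : Set (EuclideanSpace ℝ (Fin 3))) (p : EuclideanSpace ℝ (Fin 3)) : Prop :=
  ∀ g : EuclideanSpace ℝ (Fin 3) ≃ᵃ[ℝ] EuclideanSpace ℝ (Fin 3), g '' K = K → g p = p

/-- Q1 for `n = 3` and every convex body `K` with centroid `0` for which `0` maximises
`p ↦ vol (K ∩ (2p - K))` among the points `p` that are fixed by all affine symmetries of `K`. -/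
theorem result (v : Fin 4 → EuclideanSpace ℝ (Fin 3)) (K : Set (EuclideanSpace ℝ (Fin 3)))
    (hv : AffineIndependent ℝ v) (hv0 : (∫ x in convexHull ℝ (range v), x) = 0)
    (hK : Convex ℝ K) (hKc : IsCompact K) (hKi : (interior K).Nonempty)
    (_hK0 : (∫ x in K, x) = 0)
    (h0 : ∀ p, Fixed K p → coreAt K p ≤ core K) :
    core (convexHull ℝ (range v)) * volume K ≤ core K * volume (convexHull ℝ (range v)) := by
  have h1 := Lib.MP_e508a7_gt.KB.final
    (fun _ _ hb => Lib.MP_e508a7_gt.KB.poly Lib.MP_e508a7_gt.KB.planar hb) hK hKc hKi h0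
  unfold core
  rw [← Lib.MP_e508a7_gt.KB.simplex_half hv hv0, mul_comm _ (2 * _), mul_right_comm,
    mul_comm _ (volume K)]
  exact mul_le_mul' h1 le_rfl

end Pool.Agent.Results.MP_e508a7_gt.BestCentre
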