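import Pool.Agent.Lib.MP_e508a7_gt.LqMain

set_option autoImplicit false

namespace Pool.Agent.Results.MP_e508a7_gt.EnergyBound

open MeasureTheory

/-- Every convex body `K` in `ℝ ^ n` with centroid `0` has
`vol (K ∩ -K) ≥ (321 / 500) ^ n vol K`. -/
theorem result (n : ℕ) (K : Set (EuclideanSpace ℝ (Fin n)))
    (hK : Convex ℝ K) (hKc : IsCompact K) (_hKi : (interior K).Nonempty)
    (h0 : (∫ x in K, x) = 0) :
    ENNReal.ofReal ((321 / 500 : ℝ) ^ n) * volume K
      ≤ volume {x : EuclideanSpace ℝ (Fin n) | x ∈ K ∧ -x ∈ K} := by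
  have h := Lib.MP_e508a7_gt.Lq.main hK hKc h0
  simpa only [Lib.MP_e508a7_gt.En.ov, zero_sub] using h

end Pool.Agent.Results.MP_e508a7_gt.EnergyBound
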