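import Pool.Agent.Lib.MP_e508a7_gt.Transfer

set_option autoImplicit false

namespace Pool.Agent.Results.MP_e508a7_gt.LocalMin

open MeasureTheory Set Pool.Agent.Lib.MP_e508a7_gt

/-- The ratio `vol (K ∩ -K) / vol K`. -/
noncomputable def rho {n : ℕ} (K : Set (EuclideanSpace ℝ (Fin n))) : ℝ :=
  (volume {x | x ∈ K ∧ -x ∈ K}).toReal / (volume K).toReal

/-- In every dimension `n ≥ 2` the simplex is a strict local minimiser of `rho` among convex bodies
with centroid `0`, with a linear stability estimate. -/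
theorem result (n : ℕ) (hn : 2 ≤ n) : ∃ η c : ℝ, 0 < η ∧ 0 < c ∧
    ∀ (v : Fin (n + 1) → EuclideanSpace ℝ (Fin n)) (K : Set (EuclideanSpace ℝ (Fin n))),
      AffineIndependent ℝ v → (∫ x in convexHull ℝ (range v), x) = 0 →
      Convex ℝ K → IsCompact K → (interior K).Nonempty → (∫ x in K, x) = 0 →
      (∃ w : Fin (n + 1) → EuclideanSpace ℝ (Fin n), AffineIndependent ℝ w ∧
        K ⊆ convexHull ℝ (range w) ∧
        (1 - η) * (volume (convexHull ℝ (range w))).toReal ≤ (volume K).toReal) →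
      ∃ u : Fin (n + 1) → EuclideanSpace ℝ (Fin n), AffineIndependent ℝ u ∧
        K ⊆ convexHull ℝ (range u) ∧
        rho (convexHull ℝ (range v)) +
          c * (1 - (volume K).toReal / (volume (convexHull ℝ (range u))).toReal) ≤ rho K ∧
        (rho K ≤ rho (convexHull ℝ (range v)) → K = convexHull ℝ (range u)) := by
  obtain ⟨m, rfl⟩ := Nat.exists_eq_add_of_le' hn
  obtain ⟨η, c, hη, hc, h⟩ := near m
  refine ⟨η, c, hη, hc, fun v K hv hv0 hK hKc hKi hK0 ⟨w, hw, hKw, ht⟩ => ?_⟩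
  obtain ⟨L, b, K₀, rfl, h1, h2, h3, h4, h5⟩ := normalise hK hKc hKi hw hKw ht
  obtain ⟨u, hu, e⟩ := aff2 hw L b
  obtain ⟨d, hd, h6, h7⟩ := exists_tr L b
  have h8 := h K₀ b h1 h2.isClosed h3 h4 (h7 _ h2 hK0) h5
  have e1 : rho (convexHull ℝ (range v)) = _ := ratio_simplex hv hv0
  have e2 : rho ((fun x => L x + b) ⁻¹' K₀) = _ := ratio_eq L b h2.isClosed
  have e3 : (volume ((fun x => L x + b) ⁻¹' K₀)).toReal / (volume (convexHull ℝ (range u))).toReal =
      volume.real K₀ / volume.real (Sp (n := m + 2) 1) := by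
    rw [e, ← Measure.real, ← Measure.real, h6 _ h2.measurableSet,
      h6 _ (isClosed_Sp 1).measurableSet, mul_div_mul_left _ _ hd.ne']
  rw [e1, e2]
  refine ⟨u, hu, e ▸ preimage_mono h3, e3 ▸ h8, fun h9 => ?_⟩
  have h10 := nonpos_of_mul_nonpos_right (le_of_add_le_add_left (h8.trans
    (h9.trans_eq (add_zero _).symm))) hc
  rw [sub_nonpos, one_le_div vol_T_pos] at h10
  rw [e, eq_of_vol h1 h2.isClosed h3 h10]

end Pool.Agent.Results.MP_e508a7_gt.LocalMin
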