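import Pool.Agent.Lib.MP_e508a7_gt.Fs.Main

set_option autoImplicit false

namespace Pool.Agent.Results.MP_e508a7_gt.SimplexSums

open MeasureTheory

/-- Let `T` be a simplex with centroid `0`. Let `K` be the convex hull of `n + j` points of
`ℝ ^ n` that are split into `j` classes whose convex hulls have a common point `z`. If `K` has
interior points and centroid `0`, then `vol (T ∩ -T) vol K ≤ vol (K ∩ -K) vol T`. -/
theorem result (n j : ℕ) (t : Fin (n + 1) → EuclideanSpace ℝ (Fin n))
    (ht : AffineIndependent ℝ t) (ht0 : (∫ x in convexHull ℝ (Set.range t), x) = 0)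
    (v : Fin (n + j) → EuclideanSpace ℝ (Fin n)) (c : Fin (n + j) → Fin j)
    (z : EuclideanSpace ℝ (Fin n)) (hz : ∀ a : Fin j, z ∈ convexHull ℝ (v '' {i | c i = a}))
    (K : Set (EuclideanSpace ℝ (Fin n))) (hK : K = convexHull ℝ (Set.range v))
    (hKi : (interior K).Nonempty) (h0 : (∫ x in K, x) = 0) :
    volume {x : EuclideanSpace ℝ (Fin n) |
        x ∈ convexHull ℝ (Set.range t) ∧ -x ∈ convexHull ℝ (Set.range t)} * volume K
      ≤ volume {x : EuclideanSpace ℝ (Fin n) | x ∈ K ∧ -x ∈ K}
        * volume (convexHull ℝ (Set.range t)) := by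
  subst hK
  exact Lib.MP_e508a7_gt.Fs.main t ht ht0 (Fintype.card_fin _) v c z hz hKi h0

/-- The case `j = 2`: by Radon's theorem it covers the convex hull of any `n + 2` points. -/
theorem two_more (n : ℕ) (t : Fin (n + 1) → EuclideanSpace ℝ (Fin n))
    (ht : AffineIndependent ℝ t) (ht0 : (∫ x in convexHull ℝ (Set.range t), x) = 0)
    (v : Fin (n + 2) → EuclideanSpace ℝ (Fin n))
    (K : Set (EuclideanSpace ℝ (Fin n))) (hK : K = convexHull ℝ (Set.range v))
    (hKi : (interior K).Nonempty) (h0 : (∫ x in K, x) = 0) :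
    volume {x : EuclideanSpace ℝ (Fin n) |
        x ∈ convexHull ℝ (Set.range t) ∧ -x ∈ convexHull ℝ (Set.range t)} * volume K
      ≤ volume {x : EuclideanSpace ℝ (Fin n) | x ∈ K ∧ -x ∈ K}
        * volume (convexHull ℝ (Set.range t)) := by
  classical
  have h : ¬ AffineIndependent ℝ v := fun h => by
    have h1 := h.card_le_finrank_succ
    have h2 := Submodule.finrank_le (vectorSpan ℝ (Set.range v))
    simp only [Fintype.card_fin, finrank_euclideanSpace] at h1 h2
    omega
  obtain ⟨I, z, h1, h2⟩ := Convex.radon_partition h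
  refine result n 2 t ht ht0 v (fun i => if i ∈ I then 0 else 1) z ?_ K hK hKi h0
  rw [Fin.forall_fin_two]
  constructor
  · convert h1 using 3
    ext i
    by_cases hi : i ∈ I <;> simp [hi]
  · convert h2 using 3
    ext i
    by_cases hi : i ∈ I <;> simp [hi]

end Pool.Agent.Results.MP_e508a7_gt.SimplexSums
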